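import Pool.Agent.Helper77K9.BC.Stm

/-!
BC (MP_216314_pr): the leaf BOX (from a Dobrushin domain to a half-box with the negative half-axis
wired).
-/

set_option autoImplicit false
set_option maxHeartbeats 1000000

namespace Pool.Agent.Helper54K9.BC

open H974 H973 H934E Finset
open H731C (VE)
open TH868.CT (NX WX Hit kern en)
open Helper77K9.BC (Tch)

namespace BoxL

/-- The point of the wire. -/
theorem wx_line (F : Finset Edg) (n : ℕ) : WX 0 F (-(n : ℤ), 0) := by
  induction n with
  | zero => exact Reach.refl _ _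
  | succ n ih =>
    refine ih.trans (Adj.reach ⟨((-((n : ℤ) + 1), 0, true) : Edg), Or.inr ?_, Or.inr ⟨?_, ?_⟩⟩)
    · refine ⟨?_, rfl, rfl⟩
      show -((n : ℤ) + 1) < 0
      omega
    · rw [src_mk]
      push_cast
      rfl
    · rw [tgt_true]
      congr 1
      ring

theorem wx_neg (F : Finset Edg) {z : ℤ} (hz : z ≤ 0) : WX 0 F (z, 0) := by
  obtain ⟨n, hn⟩ := Int.eq_ofNat_of_zero_le (show 0 ≤ -z by omega)
  have h := wx_line F n
  have e : -(n : ℤ) = z := by rw [← hn]; ring
  rw [e] at h
  exact h

theorem hit_of_HC {M : ℤ} {T : Finset Vtx} {A : Set Edg} (hD : Dob M T A) {S : Finset ℤ} {r : ℤ}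
    (hr : 1 ≤ r) (hM : 3 * r ≤ M) (hS : ∀ x ∈ S, 1 ≤ x ∧ x ≤ r) {F : Finset Edg}
    (hF : F ⊆ ES T) (hT : Tch A S F) (hC : HC 0 r (3 * r) F) :
    Hit S (F ∩ RE (-(3 * r)) (3 * r) 0 (3 * r)) := by
  obtain ⟨x, hx, hW⟩ := hT
  have hxS := hS x hx
  obtain ⟨l, hl1, hl2, hmeet⟩ := hc_meet (by omega) (by omega) hC
  have hz1 : (0 : ℤ) - 3 * r = -(3 * r) := by ring
  have hz2 : (0 : ℤ) + 3 * r = 3 * r := by ring
  rw [hz1, hz2] at hmeet
  set R : Finset Edg := RE (-(3 * r)) (3 * r) 0 (3 * r) with hR
  refine ⟨x, hx, ?_⟩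
  -- the path from x: inside, or done
  have key : ∀ v : Vtx, Reach (↑F ∪ A : Set Edg) (x, 0) v →
      (Reach (↑F ∩ ↑R : Set Edg) (x, 0) v ∧ inR (-(3 * r)) (3 * r) 0 (3 * r) v ∧
        -(3 * r) < v.1 ∧ v.1 < 3 * r ∧ v.2 < 3 * r) ∨ WX 0 (F ∩ R) (x, 0) := by
    intro v hv
    induction hv with
    | refl =>
      left
      refine ⟨Reach.refl _ _, ?_, ?_⟩
      · unfold inR; simp only; omega
      · simp only; omega
    | @tail u v _ hs ih =>
      rcases ih with ⟨ih, hu, hu1, hu2, hu3⟩ | ih
      · obtain ⟨e, he, hc⟩ := hs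
        -- both endpoints of e are in the box of radius 3 r
        have hends : (inR (-(3 * r)) (3 * r) (-(3 * r)) (3 * r) (src e)) ∧
            (inR (-(3 * r)) (3 * r) (-(3 * r)) (3 * r) (tgt e)) := by
          obtain ⟨ex, ey, eb⟩ := e
          unfold inR at hu ⊢
          cases eb
          · simp only [src_mk, tgt_false] at hc ⊢
            rcases hc with ⟨h1, _⟩ | ⟨_, h1⟩
            · rw [← h1] at hu hu1 hu2 hu3
              simp only at hu hu1 hu2 hu3
              omega
            · rw [← h1] at hu hu1 hu2 hu3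
              simp only at hu hu1 hu2 hu3
              omega
          · simp only [src_mk, tgt_true] at hc ⊢
            rcases hc with ⟨h1, _⟩ | ⟨_, h1⟩
            · rw [← h1] at hu hu1 hu2 hu3
              simp only at hu hu1 hu2 hu3
              omega
            · rw [← h1] at hu hu1 hu2 hu3
              simp only at hu hu1 hu2 hu3
              omega
        have hE2 : e ∈ ES (BX (0, 0) M) := by
          rw [mem_ES, mem_BX, mem_BX]
          unfold inR at hends
          simp only
          omega
        rcases he with he | he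
        · -- an edge of F
          have hs2 := (mem_ES.mp (hF (Finset.mem_coe.mp he)))
          have h0s := (hD.flat _ (mem_ES.mp hE2).1).mp hs2.1
          have h0t := (hD.flat _ (mem_ES.mp hE2).2).mp hs2.2
          have heR : e ∈ R := by
            rw [hR]
            apply mem_RE_of_ends
            · unfold inR at hends ⊢; omega
            · unfold inR at hends ⊢; omega
          have hreach : Reach (↑F ∩ ↑R : Set Edg) (x, 0) v :=
            ih.trans (Adj.reach ⟨e, ⟨he, Finset.mem_coe.mpr heR⟩, hc⟩)
          have hvR : inR (-(3 * r)) (3 * r) 0 (3 * r) v := by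
            have hRR := mem_RE_ends (hR ▸ heR)
            rcases hc with ⟨_, h2⟩ | ⟨h2, _⟩
            · rw [← h2]; exact hRR.2
            · rw [← h2]; exact hRR.1
          by_cases hout : v.1 ≤ -(3 * r) ∨ 3 * r ≤ v.1 ∨ 3 * r ≤ v.2
          · right
            have hl := hmeet (x, 0) v (by unfold inR; simp only; omega) hout hreach
            have h1 := wx_neg (F ∩ R) (z := l) (by omega)
            unfold WX at h1 ⊢
            refine h1.trans (Reach.symm (hl.mono ?_))
            intro f hf
            left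
            rw [Finset.coe_inter]
            exact hf
          · left
            push Not at hout
            exact ⟨hreach, hvR, by omega, by omega, by omega⟩
        · -- a wired edge
          right
          obtain ⟨h1, h2, h3⟩ := hD.free e he hE2
          have hu0 : u.2 = 0 ∧ u.1 ≤ 0 := by
            obtain ⟨ex, ey, eb⟩ := e
            simp only at h1 h2 h3
            subst h1
            subst h2
            rcases hc with ⟨h4, _⟩ | ⟨_, h4⟩
            · rw [src_mk] at h4
              refine ⟨by rw [← h4], ?_⟩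
              rw [← h4]
              show ex ≤ 0
              omega
            · rw [tgt_true] at h4
              refine ⟨by rw [← h4], ?_⟩
              rw [← h4]
              show ex + 1 ≤ 0
              omega
          have h5 := wx_neg (F ∩ R) (z := u.1) hu0.2
          have h6 : ((u.1, 0) : Vtx) = u := by
            rw [← hu0.1]
          rw [h6] at h5
          unfold WX at h5 ⊢
          refine h5.trans (Reach.symm (ih.mono ?_))
          intro f hf
          left
          rw [Finset.coe_inter]
          exact hf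
      · exact Or.inr ih
  rcases key _ (Reach.symm hW) with ⟨h, _⟩ | h
  · unfold WX
    refine Reach.symm (h.mono ?_)
    intro f hf
    left
    rw [Finset.coe_inter]
    exact hf
  · exact h

end BoxL

open BoxL in
theorem box : Helper77K9.BC.S_BOX := by
  refine ⟨1 / kp, by have := kp_pos; positivity, ?_⟩
  intro M T A hD S r hr hM hS
  have hsub : RE (-(3 * r)) (3 * r) 0 (3 * r) ⊆ ES T := by
    have h1 := RE_sub (k := 0) (R := M) (T := T) hD.flat
    refine (RE_subset ?_ ?_ le_rfl hM).trans h1
    · omega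
    · omega
  have hsub2 : RE (0 - 3 * r) (0 + 3 * r) 0 (3 * r) ⊆ ES T := by
    have e1 : (0 : ℤ) - 3 * r = -(3 * r) := by ring
    have e2 : (0 : ℤ) + 3 * r = 3 * r := by ring
    rw [e1, e2]
    exact hsub
  have hkp := pr_HC (k := 0) (r := r) (by omega) hsub2
  have iT : IncrE (ES T) (Tch A S) := by
    intro F G h _ hF
    obtain ⟨x, hx, hW⟩ := hF
    exact ⟨x, hx, W.mono h hW⟩
  have h1 := hmul iT (HC_incr (ES T) 0 r (3 * r)) kp_pos.le (le_refl (Q (ES T) (Tch A S))) hkp
  have h2 : Q (ES T) (fun F => Tch A S F ∧ HC 0 r (3 * r) F) ≤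
      Q (ES T) (fun F => Hit S (F ∩ RE (-(3 * r)) (3 * r) 0 (3 * r))) :=
    Q_mono (fun F hF h => hit_of_HC hD hr hM hS hF h.1 h.2)
  have h3 : Q (ES T) (fun F => Hit S (F ∩ RE (-(3 * r)) (3 * r) 0 (3 * r))) =
      Q (RE (-(3 * r)) (3 * r) 0 (3 * r)) (fun F => Hit S (F ∩ RE (-(3 * r)) (3 * r) 0 (3 * r))) := by
    apply Pr_local hsub
    intro F _
    rw [Finset.inter_assoc, Finset.inter_self]
  have h4 : Q (RE (-(3 * r)) (3 * r) 0 (3 * r))
      (fun F => Hit S (F ∩ RE (-(3 * r)) (3 * r) 0 (3 * r))) =
      Q (RE (-(3 * r)) (3 * r) 0 (3 * r)) (Hit S) := by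
    apply Pr_congr
    intro F hF
    rw [Finset.inter_eq_left.mpr hF]
  rw [h3, h4] at h2
  rw [one_div, ← div_eq_inv_mul, le_div_iff₀ kp_pos]
  exact h1.trans h2

end Pool.Agent.Helper54K9.BC
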