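import Pool.Agent.Helper77K9.BC.Stm

/-!
BC (MP_216314_pr): the leaf SHF (from the free bottom row to the bottom row without horizontal
edges).
-/

set_option autoImplicit false
set_option maxHeartbeats 1000000

namespace Pool.Agent.Helper54K9.BC

open H974 H973 H934E Finset
open H731C (VE)
open TH868.CT (NX WX Hit kern en)

namespace ShfL

/-- Some point of `S` is joined to a point of the bottom row in `[-n, 0]`. -/
def PE (S : Finset ℤ) (n t : ℤ) (F : Finset Edg) : Prop :=
  ∃ x ∈ S, ∃ z : ℤ, -n ≤ z ∧ z ≤ 0 ∧ Reach (↑F : Set Edg) (x, t) (z, t)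

theorem adj_inR {a b c d : ℤ} {F : Finset Edg} (hF : F ⊆ RE a b c d) {u v : Vtx}
    (h : Adj (↑F : Set Edg) u v) : inR a b c d v := by
  obtain ⟨e, he, hc⟩ := h
  have h1 := mem_RE_ends (hF (Finset.mem_coe.mp he))
  rcases hc with ⟨_, h2⟩ | ⟨h2, _⟩
  · rw [← h2]; exact h1.2
  · rw [← h2]; exact h1.1

theorem reach_inR {a b c d : ℤ} {F : Finset Edg} (hF : F ⊆ RE a b c d) {u v : Vtx}
    (hu : inR a b c d u) (h : Reach (↑F : Set Edg) u v) : inR a b c d v := by
  induction h with
  | refl => exact hu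
  | tail _ hs _ => exact adj_inR hF hs

/-- The point of the wire. -/
theorem wx_line (F : Finset Edg) (n : ℕ) : WX 0 F (-(n : ℤ), 0) := by
  induction n with
  | zero => exact Reach.refl _ _
  | succ n ih =>
    refine ih.trans (Adj.reach ⟨((-((n : ℤ) + 1), 0, true) : Edg), Or.inr ?_, Or.inr ⟨?_, ?_⟩⟩)
    · refine ⟨?_, rfl, rfl⟩
      show -((n : ℤ) + 1) < 0
      omega
    · rw [src_mk]
      push_cast
      rfl
    · rw [tgt_true]
      congr 1
      ring

theorem wx_neg (F : Finset Edg) {z : ℤ} (hz : z ≤ 0) : WX 0 F (z, 0) := by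
  obtain ⟨n, hn⟩ := Int.eq_ofNat_of_zero_le (show 0 ≤ -z by omega)
  have h := wx_line F n
  have e : -(n : ℤ) = z := by rw [← hn]; ring
  rw [e] at h
  exact h

theorem hit_pe {S : Finset ℤ} {n : ℤ} (hn : 1 ≤ n) (hS : ∀ x ∈ S, 1 ≤ x ∧ x ≤ n)
    {F : Finset Edg} (hF : F ⊆ RE (-n) n 0 n) (h : Hit S F) : PE S n 0 F := by
  obtain ⟨x, hx, hW⟩ := h
  have hR : inR (-n) n 0 n ((x, 0) : Vtx) := by
    have := hS x hx
    unfold inR
    simp only
    omega
  have key : ∀ v : Vtx, Reach (↑F ∪ NX 0 : Set Edg) (x, 0) v →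
      Reach (↑F : Set Edg) (x, 0) v ∨
        ∃ z : ℤ, -n ≤ z ∧ z ≤ 0 ∧ Reach (↑F : Set Edg) (x, 0) (z, 0) := by
    intro v hv
    induction hv with
    | refl => exact Or.inl (Reach.refl _ _)
    | @tail u v _ hs ih =>
      rcases ih with ih | ih
      · obtain ⟨e, he, hc⟩ := hs
        rcases he with he | he
        · exact Or.inl (ih.trans (Adj.reach ⟨e, he, hc⟩))
        · right
          have hu := reach_inR hF hR ih
          obtain ⟨ex, ey, eb⟩ := e
          obtain ⟨h1, h2, h3⟩ := he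
          simp only at h1 h2 h3
          subst h2
          subst h3
          obtain ⟨u1, u2⟩ := u
          unfold inR at hu
          simp only at hu
          rcases hc with ⟨h4, _⟩ | ⟨_, h4⟩
          · rw [src_mk, Prod.mk.injEq] at h4
            obtain ⟨h5, h6⟩ := h4
            subst h6
            exact ⟨u1, hu.1.1, by omega, ih⟩
          · rw [tgt_true, Prod.mk.injEq] at h4
            obtain ⟨h5, h6⟩ := h4
            subst h6
            exact ⟨u1, hu.1.1, by omega, ih⟩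
      · exact Or.inr ih
  rcases key _ (Reach.symm hW) with h | ⟨z, h1, h2, h3⟩
  · exact ⟨x, hx, 0, by omega, le_rfl, h⟩
  · exact ⟨x, hx, z, h1, h2, h3⟩

theorem pe_shift {S : Finset ℤ} {n : ℤ} {F : Finset Edg} (h : PE S n 0 F) :
    PE S n 1 ((trl 0 1).mp F) := by
  obtain ⟨x, hx, z, h1, h2, h3⟩ := h
  refine ⟨x, hx, z, h1, h2, ?_⟩
  have h4 := (trl 0 1).reach h3
  rw [trl_ψ, trl_ψ, ← LSym.coe_mp] at h4
  simpa using h4

theorem Q_edge {T : Finset Edg} {e : Edg} (he : e ∈ T) : Q T (fun G => e ∈ G) = 1 / 2 := by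
  have h1 : ({e} : Finset Edg) ⊆ T := by
    intro a ha
    rw [Finset.mem_singleton] at ha
    rw [ha]; exact he
  have h2 : Q T (fun G => e ∈ G) = Q {e} (fun G => e ∈ G) := by
    apply Pr_local h1
    intro G _
    rw [Finset.mem_inter, Finset.mem_singleton]
    tauto
  rw [h2]
  unfold Q Pr
  have h3 : ({e} : Finset Edg) = insert e ∅ := rfl
  rw [h3, Ex_insert _ (Finset.notMem_empty e), Ex_empty, Ex_empty, ind_of (by simp),
    ind_not_of (by simp)]
  norm_num

theorem two_edges {T : Finset Edg} {e f : Edg} (he : e ∈ T) (hf : f ∈ T) :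
    (1 / 4 : ℝ) ≤ Q T (fun G => e ∈ G ∧ f ∈ G) := by
  have i1 : IncrE T (fun G => e ∈ G) := fun F G h _ hF => h hF
  have i2 : IncrE T (fun G => f ∈ G) := fun F G h _ hF => h hF
  have h := Pr_harris (okhalf) i1 i2
  have h1 := Q_edge he
  have h2 := Q_edge hf
  unfold Q at h1 h2
  rw [h1, h2] at h
  refine le_trans (by norm_num) h

end ShfL

open ShfL in
theorem shf : Helper77K9.BC.S_SHF := by
  intro S n N hn hN hS
  set U : Finset Edg := (trl 0 1).mp (RE (-n) n 0 n) with hU
  have hUeq : U = RE (-n) n 1 (n + 1) := by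
    rw [hU, trl_RE]
    congr 1 <;> ring
  have hUV : U ⊆ VE (-N) N 0 N := by
    rw [hUeq]
    intro e he
    obtain ⟨x, y, b⟩ := e
    cases b
    · rw [mem_RE_false] at he
      rw [H731C.mem_VE_false]
      omega
    · rw [mem_RE_true] at he
      rw [H731C.mem_VE_true]
      omega
  -- first step
  have s1 : Q (RE (-n) n 0 n) (Hit S) ≤ Q U (PE S n 1) := by
    rw [hU]
    unfold Q
    rw [LSym.pr]
    exact Pr_mono okhalf (fun F hF h => pe_shift (hit_pe hn hS hF h))
  -- second step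
  have s2 : Q U (PE S n 1) * (1 / 4) ≤ Q (VE (-N) N 0 N) (Hit S) := by
    have hd : VE (-N) N 0 N = U ∪ (VE (-N) N 0 N \ U) := by
      rw [Finset.union_sdiff_of_subset hUV]
    unfold Q Pr
    conv_rhs => rw [hd]
    rw [Ex_union Finset.disjoint_sdiff, ← Ex_mul_right]
    apply Ex_mono okhalf
    intro F hF
    by_cases hP : PE S n 1 F
    · rw [ind_of hP, one_mul]
      obtain ⟨x, hx, z, hz1, hz2, hr⟩ := hP
      have hxS := hS x hx
      have hv : ∀ w : ℤ, -n ≤ w → w ≤ n → ((w, 0, false) : Edg) ∈ VE (-N) N 0 N \ U := by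
        intro w hw1 hw2
        rw [Finset.mem_sdiff, hUeq, H731C.mem_VE_false, mem_RE_false]
        omega
      refine (two_edges (hv x (by omega) hxS.2) (hv z hz1 (by omega))).trans ?_
      apply Ex_mono okhalf
      intro G _
      apply ind_mono
      rintro ⟨g1, g2⟩
      refine ⟨x, hx, ?_⟩
      have r1 : Reach (↑(F ∪ G) ∪ NX 0 : Set Edg) (x, 1) (z, 1) := hr.mono (by
        intro e he
        left
        rw [Finset.coe_union]
        exact Or.inl he)
      have r2 : ∀ w : ℤ, ((w, 0, false) : Edg) ∈ G →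
          Reach (↑(F ∪ G) ∪ NX 0 : Set Edg) (w, 0) (w, 1) := by
        intro w hw
        refine Adj.reach ⟨(w, 0, false), Or.inl ?_, Or.inl ⟨by rw [src_mk], by rw [tgt_false]; rfl⟩⟩
        rw [Finset.mem_coe, Finset.mem_union]
        exact Or.inr hw
      have r3 : WX 0 (F ∪ G) (z, 0) := wx_neg _ hz2
      unfold WX at r3 ⊢
      exact r3.trans ((r2 z g2).trans (r1.symm.trans (r2 x g1).symm))
    · rw [ind_not_of hP, zero_mul]
      exact Ex_nonneg okhalf (fun _ _ => ind_nonneg _)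
  linarith

end Pool.Agent.Helper54K9.BC
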